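import Pool.Agent.MNE.StmtsD

/-!
# MP_d2d93c_nt, THEOREM E, row FVB (helper21)

`gcd(M, q) = 1` for the exponents of an infinite family of solutions of the normalised equation.
-/

set_option autoImplicit false

namespace Pool.Agent.MNE.H21

open Finset Filter Topology Pool.Agent.MNE

lemma pow_le_abs_sub (a b : ℤ) (ha : 0 < a) (hb : 0 < b) (h : a ≠ b) (m : ℕ) :
    b ^ m ≤ |a ^ (m + 1) - b ^ (m + 1)| := by
  rcases lt_or_gt_of_ne h with h | h
  · have h1 : a ^ m ≤ b ^ m := pow_le_pow_left₀ ha.le h.le m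
    have h2 : b ^ m ≤ b ^ (m + 1) - a ^ (m + 1) := by
      rw [pow_succ, pow_succ]
      have h3 : 0 < b ^ m := pow_pos hb m
      nlinarith [mul_nonneg (sub_nonneg.mpr h1) ha.le, mul_nonneg h3.le (by linarith : (0 : ℤ) ≤ b - a - 1)]
    exact h2.trans (by rw [abs_sub_comm]; exact le_abs_self _)
  · have h1 : b ^ m ≤ a ^ m := pow_le_pow_left₀ hb.le h.le m
    have h2 : b ^ m ≤ a ^ (m + 1) - b ^ (m + 1) := by
      rw [pow_succ, pow_succ]
      have h3 : 0 < a ^ m := pow_pos ha m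
      nlinarith [mul_nonneg (sub_nonneg.mpr h1) hb.le, mul_nonneg h3.le (by linarith : (0 : ℤ) ≤ a - b - 1)]
    exact h2.trans (le_abs_self _)

/-- FVB. -/
theorem fvb (hA : AsyStmt) : FvbStmt := by
  intro κ c σ M n q S hP hS hE h2n
  by_contra hco
  obtain ⟨hne, hX, hY, -⟩ := hA κ c σ M n q S hP hS hE
  have e1 : ∀ᶠ p in lim S, p ∈ S := mem_inf_of_right (mem_principal_self S)
  have e2 : ∀ᶠ p : ℕ × ℕ in lim S, (|(c : ℝ)| * 2 ^ n) < (p.1 : ℝ) := hX.eventually_gt_atTop _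
  have e3 : ∀ᶠ p : ℕ × ℕ in lim S, (p.2 : ℝ) / p.1 < 1 / 2 :=
    hY.eventually_lt_const (by norm_num)
  obtain ⟨p, h1, h2, h3⟩ := (e1.and (e2.and e3)).exists
  obtain ⟨X, Y⟩ := p
  have hE1 := hE _ h1
  simp only at h2 h3 hE1
  have hYpos := hE1.hY
  have hYX := hE1.hYX
  have hXpos : 0 < X := hYpos.trans hYX
  have hX' : (0 : ℝ) < X := by exact_mod_cast hXpos
  have h4 : 2 * (Y : ℤ) < X := by
    rw [div_lt_iff₀ hX'] at h3
    have : 2 * (Y : ℝ) < X := by linarith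
    exact_mod_cast this
  have h5 : |c| * 2 ^ n < (X : ℤ) := by exact_mod_cast h2
  have hYz : (0 : ℤ) < Y := by exact_mod_cast hYpos
  -- the gcd
  have hM : 0 < M := hP.hn.trans hP.hnM
  have hg0 : 0 < Nat.gcd M q := Nat.gcd_pos_of_pos_left _ hM
  have hg : 2 ≤ Nat.gcd M q := by
    have : Nat.gcd M q ≠ 1 := hco
    omega
  obtain ⟨m, hm⟩ : ∃ m, Nat.gcd M q = m + 1 := ⟨Nat.gcd M q - 1, by omega⟩
  obtain ⟨M', hM'⟩ := Nat.gcd_dvd_left M q
  obtain ⟨q', hq'⟩ := Nat.gcd_dvd_right M q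
  rw [hm] at hM' hq'
  -- the numbers
  obtain ⟨e, he⟩ : ∃ e : ℕ, κ = ((2 : ℤ) ^ e) ^ (m + 1) := by
    rcases hP.hκ with h | h
    · exact ⟨M', by rw [h.1, ← pow_mul, mul_comm M', ← hM']⟩
    · exact ⟨q', by rw [h.1, ← pow_mul, mul_comm q', ← hq']⟩
  have hc : c ≠ 0 := by
    rcases hP.hκ with h | h
    · rw [h.2]; positivity
    · rw [h.2]; norm_num
  set u : ℤ := (X : ℤ) ^ 2 + σ * (Y : ℤ) ^ 2 with hu
  set w : ℤ := (X : ℤ) ^ 2 - σ * (Y : ℤ) ^ 2 with hw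
  have hXz : (0 : ℤ) < X := by exact_mod_cast hXpos
  have hYY : 4 * (Y : ℤ) ^ 2 < (X : ℤ) ^ 2 := by nlinarith
  have hu0 : (X : ℤ) ≤ u := by
    rcases hP.hσ with h | h <;> rw [hu, h] <;> nlinarith
  have hw0 : 0 < w := by
    rcases hP.hσ with h | h <;> rw [hw, h] <;> nlinarith
  have hwu : w ≤ 2 * u := by
    rcases hP.hσ with h | h <;> rw [hw, hu, h] <;> nlinarith
  have hupos : 0 < u := hXz.trans_le hu0
  set a : ℤ := 2 ^ e * (X : ℤ) ^ q' * (Y : ℤ) ^ q' with ha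
  have hapos : 0 < a := by positivity
  set b : ℤ := u ^ M' with hb
  have hbpos : 0 < b := by positivity
  have heq : a ^ (m + 1) - b ^ (m + 1) = c * w ^ n := by
    have h6 : a ^ (m + 1) = κ * (X : ℤ) ^ q * (Y : ℤ) ^ q := by
      rw [ha, he, mul_pow, mul_pow, ← pow_mul (X : ℤ), ← pow_mul (Y : ℤ), mul_comm q', ← hq']
    have h7 : b ^ (m + 1) = u ^ M := by
      rw [hb, ← pow_mul, mul_comm M', ← hM']
    rw [h6, h7, hE1.eq]
    ring
  have hab : a ≠ b := by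
    intro h
    rw [h, sub_self] at heq
    exact (mul_ne_zero hc (pow_ne_zero n hw0.ne')) heq.symm
  have h8 := pow_le_abs_sub a b hapos hbpos hab m
  rw [heq, abs_mul, abs_of_pos (pow_pos hw0 n), hb, ← pow_mul] at h8
  -- the exponents
  have h9 : n + 1 ≤ M' * m := by
    have h10 : M = m * M' + M' := by rw [hM']; ring
    have h11 : 1 ≤ m := by omega
    have h12 : M' ≤ m * M' := Nat.le_mul_of_pos_left _ h11
    have h13 := hP.hMq
    have h14 := hP.hq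
    rw [mul_comm M' m]
    omega
  have h15 : u ^ (n + 1) ≤ |c| * (2 ^ n * u ^ n) :=
    calc u ^ (n + 1) ≤ u ^ (M' * m) := pow_le_pow_right₀ (by linarith) h9
      _ ≤ |c| * w ^ n := h8
      _ ≤ |c| * (2 * u) ^ n :=
        mul_le_mul_of_nonneg_left (pow_le_pow_left₀ hw0.le hwu n) (abs_nonneg c)
      _ = |c| * (2 ^ n * u ^ n) := by rw [mul_pow]
  have h16 : u * u ^ n ≤ (|c| * 2 ^ n) * u ^ n := by
    calc u * u ^ n = u ^ (n + 1) := by ring
      _ ≤ |c| * (2 ^ n * u ^ n) := h15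
      _ = (|c| * 2 ^ n) * u ^ n := by ring
  have h17 : u ≤ |c| * 2 ^ n := le_of_mul_le_mul_right h16 (pow_pos hupos n)
  linarith

end Pool.Agent.MNE.H21
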